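import Pool.Agent.H65.AP.Targets
import Pool.Agent.H27.IC.SIG

/-!
# Products of good sign functions (helper40, MP_0ee698_an): module SGM
-/

open MeasureTheory Set Filter Topology Metric
open scoped ENNReal NNReal ContDiff RealInnerProductSpace

namespace Pool.Agent.H40.AP

open Pool.Agent.H94.IC Pool.Agent.H94.AC Pool.Agent.H92.CK Pool.Agent.H65.AP

/-- near a point which is not in the second set the product changes sign as the first factor -/
theorem flip_aux (hANL : T_ANL) {Y Z W : Set E} {s t : E → ℤˣ} {p : E} (hp : p ∈ W)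
    {N : Set E} (hN : N ∈ 𝓝 p) (hZ : Z ∩ N = ∅) (hs : Good Y W s) (ht : LC Z W t)
    (hG : GrPt (Y ∪ Z) p) : Flip (Y ∪ Z) (fun x => s x * t x) p := by
  have hZN : ∀ y ∈ N, y ∉ Z := fun y hy hz => by
    have h1 : y ∈ Z ∩ N := ⟨hz, hy⟩
    rw [hZ] at h1
    exact h1
  have hYN : Y ∩ N = (Y ∪ Z) ∩ N := by
    rw [union_inter_distrib_right, hZ, union_empty]
  obtain ⟨T, r, h, g, hB, c, hc⟩ := hs.flip p hp ((hANL (Y ∪ Z) Y N p hN).2.2 hYN hG)
  have hM : N ∩ {y | t y = t p} ∈ 𝓝 p :=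
    inter_mem hN (ht p ⟨hp, hZN p (mem_of_mem_nhds hN)⟩)
  obtain ⟨r', h', hB', hbN, hbb⟩ := Pool.Agent.H27.IC.gr_shrink hB _ hM
  refine ⟨T, r', h', g, ⟨hB'.rpos, hB'.hpos, hB'.cont, hB'.zero, hB'.bd, fun x hx => ?_⟩,
    c * t p, fun x hx => ⟨fun h1 => ?_, fun h1 => ?_⟩⟩
  · rw [← hB'.eq x hx]
    exact ⟨fun h1 => h1.resolve_right (hZN x (hbN hx).1), fun h1 => Or.inl h1⟩
  · simp only
    rw [(hc x (hbb hx)).1 h1, (hbN hx).2]
  · simp only
    rw [(hc x (hbb hx)).2 h1, (hbN hx).2, neg_mul]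

/-- MODULE SGM: products of good sign functions of disjoint sets -/
theorem pf_SGM (hANL : T_ANL) : T_SGM := by
  intro Y Z W s t _ _ _ hd hs ht
  refine ⟨fun x hx => ?_, fun p hp hG => ?_⟩
  · filter_upwards [hs.lc x ⟨hx.1, fun h => hx.2 (Or.inl h)⟩,
      ht.lc x ⟨hx.1, fun h => hx.2 (Or.inr h)⟩] with y h1 h2
    rw [h1, h2]
  · obtain ⟨N, hN, hYN | hZN⟩ := hd p hp
    · have h1 := flip_aux hANL (Y := Z) (Z := Y) (s := t) (t := s) hp hN hYN ht hs.lc
        (by rwa [union_comm])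
      rw [union_comm] at h1
      have h2 : (fun x => t x * s x) = fun x => s x * t x := by
        funext x
        exact mul_comm _ _
      rwa [h2] at h1
    · exact flip_aux hANL hp hN hZN hs ht.lc hG

end Pool.Agent.H40.AP
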