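import Pool.Agent.H65.AP.Targets
import Pool.Agent.H29.IC.HRP

/-!
# Unique continuation for dipole fields (helper40, MP_0ee698_an): module UCP

A square integrable field on a bounded open set with the divergence of a uniformly polarised ball
and no curl in a connected open set reaching the outside of the domain: the polarisation is zero.
-/

open MeasureTheory Set Filter Topology Metric
open scoped ENNReal NNReal ContDiff RealInnerProductSpace

namespace Pool.Agent.H40.AP

open Pool.Agent.H94.IC Pool.Agent.H94.AC Pool.Agent.H92.CK Pool.Agent.H65.AP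

/-- the curl depends on the germ -/
theorem curl_congr {A B : E → E} {x : E} (h : A =ᶠ[𝓝 x] B) : curl A x = curl B x := by
  unfold curl
  rw [h.fderiv_eq]

/-- the curl vanishes outside the support -/
theorem curl_zero {A : E → E} {x : E} (h : x ∉ tsupport A) : curl A x = 0 := by
  have h1 : A =ᶠ[𝓝 x] fun _ => (0 : E) := notMem_tsupport_iff_eventuallyEq.mp h
  rw [curl_congr h1]
  unfold curl
  ext j
  fin_cases j <;> simp

/-- the gradient vanishes outside the support -/
theorem gr_zero {φ : E → ℝ} {x : E} (h : x ∉ tsupport φ) : gr φ x = 0 :=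
  image_eq_zero_of_notMem_tsupport fun h1 => h (Pool.Agent.H29.IC.tsupport_gr h1)

/-- the gradient depends on the germ -/
theorem gr_congr {φ ψ : E → ℝ} {x : E} (h : φ =ᶠ[𝓝 x] ψ) : gr φ x = gr ψ x := by
  unfold gr gradient
  rw [h.fderiv_eq]

/-- the gradient of a linear function -/
theorem gr_lin (c x : E) : gr (fun y => ⟪c, y⟫) x = c := by
  have h1 : HasFDerivAt (fun y : E => ⟪c, y⟫) (innerSL ℝ c) x := (innerSL ℝ c).hasFDerivAt
  unfold gr gradient
  rw [h1.fderiv]
  exact (InnerProductSpace.toDual ℝ E).symm_apply_apply c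

/-- products with smooth compactly supported fields are integrable -/
theorem int_prod {Ω : Set E} (hΩ : Bornology.IsBounded Ω) {P : E → E}
    (hP : MemLp P 2 (volume.restrict Ω)) {X : E → E} (hX : ContDiff ℝ ∞ X)
    (hc : HasCompactSupport X) : Integrable (fun y => ⟪P y, X y⟫) (volume.restrict Ω) := by
  have h1 := Pool.Agent.H29.IC.int_left (u := fun _ => (0 : ℝ)) hΩ MemLp.zero hP
    (hX.of_le (by norm_cast)) hc
  simpa using h1

/-- the components of the field are weakly harmonic -/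
theorem wharm (hCRL : T_CRL) {Ω W O : Set E} {x v : E} {ρ : ℝ} {P : E → E}
    (hΩ : Bornology.IsBounded Ω) (hP : MemLp P 2 (volume.restrict Ω))
    (hg : ∀ φ : E → ℝ, ContDiff ℝ ∞ φ → HasCompactSupport φ →
      ∫ y in Ω, ⟪P y, gr φ y⟫ = ∫ y in ball x ρ, ⟪v, gr φ y⟫)
    (hc : ∀ B : E → E, ContDiff ℝ ∞ B → HasCompactSupport B → tsupport B ⊆ W →
      ∫ y in Ω, ⟪P y, curl B y⟫ = 0)
    (hOW : O ⊆ W) (hOb : ∀ y ∈ O, y ∉ ball x ρ) (k : Fin 3) (φ : E → ℝ)
    (hφ : ContDiff ℝ ∞ φ) (hcs : HasCompactSupport φ) (hs : tsupport φ ⊆ O) :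
    ∫ y in Ω, P y k * ∑ j : Fin 3, pd j (pd j φ) y = 0 := by
  obtain ⟨h1, -, h3, -⟩ := hCRL
  have hpd : ContDiff ℝ ∞ (pd k φ) := Pool.Agent.H29.IC.contDiff_pd k hφ
  have hpdt : tsupport (pd k φ) ⊆ tsupport φ := by
    apply closure_minimal _ (isClosed_tsupport φ)
    intro y hy
    by_contra hn
    apply hy
    have e1 : φ =ᶠ[𝓝 y] 0 := notMem_tsupport_iff_eventuallyEq.mp hn
    unfold pd
    rw [e1.fderiv_eq]
    simp
  have hpdc : HasCompactSupport (pd k φ) := hcs.of_isClosed_subset (isClosed_tsupport _) hpdt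
  -- the vector potential
  have hA : ContDiff ℝ ∞ (fun y => φ y • ev k) := hφ.smul contDiff_const
  have hAt : tsupport (fun y => φ y • ev k) ⊆ tsupport φ := by
    apply closure_minimal _ (isClosed_tsupport φ)
    intro y hy
    by_contra hn
    apply hy
    simp only
    rw [image_eq_zero_of_notMem_tsupport hn, zero_smul]
  have hAc : HasCompactSupport (fun y => φ y • ev k) :=
    hcs.of_isClosed_subset (isClosed_tsupport _) hAt
  obtain ⟨b1, b2, -⟩ := h1 _ hA
  have hBc : HasCompactSupport (curl fun y => φ y • ev k) :=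
    hAc.of_isClosed_subset (isClosed_tsupport _) b2
  obtain ⟨d1, d2, -⟩ := h1 _ b1
  have hDc : HasCompactSupport (curl (curl fun y => φ y • ev k)) :=
    hBc.of_isClosed_subset (isClosed_tsupport _) d2
  have e0 : ∫ y in Ω, ⟪P y, curl (curl fun z => φ z • ev k) y⟫ = 0 :=
    hc _ b1 hBc ((b2.trans hAt).trans (hs.trans hOW))
  have e1 : ∫ y in Ω, ⟪P y, gr (pd k φ) y⟫ = 0 := by
    rw [hg _ hpd hpdc]
    refine setIntegral_eq_zero_of_forall_eq_zero fun y hy => ?_
    rw [gr_zero (fun h2 => hOb y (hs (hpdt h2)) hy), inner_zero_right]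
  have e2 : ∀ y, P y k * ∑ j : Fin 3, pd j (pd j φ) y =
      ⟪P y, gr (pd k φ) y⟫ - ⟪P y, curl (curl fun z => φ z • ev k) y⟫ := by
    intro y
    rw [h3 φ k hφ y, inner_add_right, add_sub_cancel_left, real_inner_smul_right,
      EuclideanSpace.inner_single_right]
    simp [mul_comm]
  simp_rw [e2]
  rw [integral_sub (int_prod hΩ hP (Pool.Agent.H29.IC.contDiff_gr hpd)
    (Pool.Agent.H29.IC.cs_gr hpdc)) (int_prod hΩ hP d1 hDc), e0, e1, sub_zero]

/-- MODULE UCP: unique continuation, there is no dipole field without charge outside -/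
theorem pf_UCP (hCRL : T_CRL) (hHOL : T_HOL) (hWYL : T_WYL) (hHRX : T_HRX) (hIDT : T_IDT) :
    T_UCP := by
  intro Ω W x v ρ P ho hΩ hW hWc hne hρ hbW hbΩ hP hg hc
  set O : Set E := W \ closedBall x (5 * ρ / 4) with hOdef
  have hO : IsOpen O := hW.sdiff isClosed_closedBall
  have hOc : IsPreconnected O :=
    hHOL W x (5 * ρ / 4) (2 * ρ) hW hWc (by positivity) (by linarith) hbW
  have hOW : O ⊆ W := sdiff_subset
  have hOb : ∀ y ∈ O, y ∉ ball x ρ := fun y hy hb =>
    hy.2 (mem_closedBall.mpr (by have := mem_ball.mp hb; linarith))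
  have hcb : closedBall x (5 * ρ / 4) ⊆ ball x (2 * ρ) := closedBall_subset_ball (by linarith)
  -- the open set outside
  have hcl : IsOpen (closure Ω)ᶜ := isClosed_closure.isOpen_compl
  have hUO : W ∩ (closure Ω)ᶜ ⊆ O := fun y hy =>
    ⟨hy.1, fun h1 => hy.2 (subset_closure (hbΩ (hcb h1)))⟩
  -- each component vanishes on `O`
  have key : ∀ k : Fin 3, ∀ᵐ y, y ∈ O → Ω.indicator (fun z => P z k) y = 0 := by
    intro k
    have hPk : MemLp (fun z => P z k) 2 (volume.restrict Ω) := by
      refine hP.norm.mono ?_ ?_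
      · exact (EuclideanSpace.proj k : E →L[ℝ] ℝ).continuous.comp_aestronglyMeasurable
          hP.aestronglyMeasurable
      · exact ae_of_all _ fun z => by
          rw [norm_norm]
          exact PiLp.norm_apply_le (P z) k
    have hw2 : MemLp (Ω.indicator fun z => P z k) 2 (volume.restrict O) := by
      have h1 : MemLp (Ω.indicator fun z => P z k) 2 volume := by
        rw [memLp_indicator_iff_restrict ho.measurableSet]
        exact hPk
      exact h1.restrict O
    obtain ⟨H, hH, hwH⟩ := hWYL O _ hO hw2 (by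
      intro φ hφ hcs hs
      have e1 : (∫ y in O, Ω.indicator (fun z => P z k) y * ∑ j : Fin 3, pd j (pd j φ) y) =
          ∫ y, Ω.indicator (fun z => P z k) y * ∑ j : Fin 3, pd j (pd j φ) y := by
        apply setIntegral_eq_integral_of_forall_compl_eq_zero
        intro y hy
        rw [← Pool.Agent.H29.IC.dv_gr (hφ.contDiffAt.of_le (by norm_cast)),
          Pool.Agent.H29.IC.dv_eq_zero_of_notMem
            (fun h1 => hy (hs (Pool.Agent.H29.IC.tsupport_gr h1))), mul_zero]
      have e2 : (fun y => Ω.indicator (fun z => P z k) y * ∑ j : Fin 3, pd j (pd j φ) y) =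
          Ω.indicator (fun y => P y k * ∑ j : Fin 3, pd j (pd j φ) y) := by
        funext y
        by_cases hy : y ∈ Ω
        · rw [indicator_of_mem hy, indicator_of_mem hy]
        · rw [indicator_of_notMem hy, indicator_of_notMem hy, zero_mul]
      rw [e1, e2, integral_indicator ho.measurableSet]
      exact wharm hCRL hΩ hP hg hc hOW hOb k φ hφ hcs hs)
    have hwH' : ∀ᵐ y, y ∈ O → Ω.indicator (fun z => P z k) y = H y :=
      (ae_restrict_iff' hO.measurableSet).mp hwH
    have hHc : ContinuousOn H O := hH.1.continuousOn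
    have hH0 : EqOn H (fun _ => 0) (W ∩ (closure Ω)ᶜ) := by
      refine Measure.eqOn_open_of_ae_eq (μ := volume) ?_ (hW.inter hcl) (hHc.mono hUO)
        continuousOn_const
      rw [EventuallyEq, ae_restrict_iff' (hW.inter hcl).measurableSet]
      filter_upwards [hwH'] with y hy hyc
      rw [← hy (hUO hyc), indicator_of_notMem (fun h1 => hyc.2 (subset_closure h1))]
    have hzero := hIDT O (W ∩ (closure Ω)ᶜ) H hO hOc hHc (by
      intro p hp
      obtain ⟨r, hr, hball⟩ := Metric.isOpen_iff.mp hO p hp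
      exact ⟨r / 16, by positivity, hHRX O H p r hH hr hball⟩) (hW.inter hcl) hne hUO
      (fun y hy => hH0 hy)
    filter_upwards [hwH'] with y hy hyO
    rw [hy hyO, hzero y hyO]
  have hP0 : ∀ᵐ y, y ∈ Ω → y ∈ O → P y = 0 := by
    have h1 : ∀ᵐ y, ∀ k : Fin 3, y ∈ O → Ω.indicator (fun z => P z k) y = 0 :=
      ae_all_iff.mpr key
    filter_upwards [h1] with y hy hyΩ hyO
    ext k
    have := hy k hyO
    rw [indicator_of_mem hyΩ] at this
    simpa using this
  -- the cutoff function
  let ζ : ContDiffBump x := ⟨3 * ρ / 2, 7 * ρ / 4, by positivity, by linarith⟩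
  have hζs : ContDiff ℝ ∞ (ζ : E → ℝ) := ζ.contDiff
  have hζt : tsupport (ζ : E → ℝ) ⊆ W := by
    rw [ζ.tsupport_eq]
    exact (closedBall_subset_ball (show 7 * ρ / 4 < 2 * ρ by linarith)).trans hbW
  have hζ1 : ∀ y ∈ closedBall x (5 * ρ / 4), (ζ : E → ℝ) =ᶠ[𝓝 y] fun _ => 1 := by
    intro y hy
    have h1 : ball x (3 * ρ / 2) ∈ 𝓝 y := isOpen_ball.mem_nhds
      (closedBall_subset_ball (by linarith) hy)
    filter_upwards [h1] with z hz
    exact ζ.one_of_mem_closedBall (ball_subset_closedBall hz)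
  obtain ⟨Bv, hBv, hBvc⟩ := hCRL.2.2.2 v
  have hLs : ContDiff ℝ ∞ (fun y : E => ⟪v, y⟫) := (innerSL ℝ v).contDiff
  have hφ : ContDiff ℝ ∞ (fun y : E => ζ y * ⟪v, y⟫) := hζs.mul hLs
  have hB : ContDiff ℝ ∞ (fun y : E => ζ y • Bv y) := hζs.smul hBv
  have hφt : tsupport (fun y : E => ζ y * ⟪v, y⟫) ⊆ tsupport (ζ : E → ℝ) := by
    apply closure_minimal _ (isClosed_tsupport _)
    intro y hy
    by_contra hn
    apply hy
    simp only
    rw [image_eq_zero_of_notMem_tsupport hn, zero_mul]
  have hBt : tsupport (fun y : E => ζ y • Bv y) ⊆ tsupport (ζ : E → ℝ) := by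
    apply closure_minimal _ (isClosed_tsupport _)
    intro y hy
    by_contra hn
    apply hy
    simp only
    rw [image_eq_zero_of_notMem_tsupport hn, zero_smul]
  have hφc : HasCompactSupport (fun y : E => ζ y * ⟪v, y⟫) :=
    ζ.hasCompactSupport.of_isClosed_subset (isClosed_tsupport _) hφt
  have hBc : HasCompactSupport (fun y : E => ζ y • Bv y) :=
    ζ.hasCompactSupport.of_isClosed_subset (isClosed_tsupport _) hBt
  have hgK : ∀ y ∈ closedBall x (5 * ρ / 4), gr (fun z : E => ζ z * ⟪v, z⟫) y = v := by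
    intro y hy
    have h1 : (fun z : E => ζ z * ⟪v, z⟫) =ᶠ[𝓝 y] fun z => ⟪v, z⟫ := by
      filter_upwards [hζ1 y hy] with z hz
      rw [hz, one_mul]
    rw [gr_congr h1, gr_lin]
  have hcK : ∀ y ∈ closedBall x (5 * ρ / 4), curl (fun z : E => ζ z • Bv z) y = v := by
    intro y hy
    have h1 : (fun z : E => ζ z • Bv z) =ᶠ[𝓝 y] Bv := by
      filter_upwards [hζ1 y hy] with z hz
      rw [hz, one_smul]
    rw [curl_congr h1, hBvc]
  have e1 : ∫ y in Ω, ⟪P y, gr (fun z : E => ζ z * ⟪v, z⟫) y⟫ =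
      ∫ y in Ω, ⟪P y, curl (fun z : E => ζ z • Bv z) y⟫ := by
    refine setIntegral_congr_ae ho.measurableSet ?_
    filter_upwards [hP0] with y hy hyΩ
    by_cases hyK : y ∈ closedBall x (5 * ρ / 4)
    · rw [hgK y hyK, hcK y hyK]
    · by_cases hyW : y ∈ W
      · rw [hy hyΩ ⟨hyW, hyK⟩, inner_zero_left, inner_zero_left]
      · rw [gr_zero (fun h1 => hyW (hζt (hφt h1))), curl_zero (fun h1 => hyW (hζt (hBt h1)))]
  rw [hc _ hB hBc (hBt.trans hζt), hg _ hφ hφc] at e1
  have e2 : ∫ y in ball x ρ, ⟪v, gr (fun z : E => ζ z * ⟪v, z⟫) y⟫ =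
      ∫ y in ball x ρ, ⟪v, v⟫ := by
    refine setIntegral_congr_fun measurableSet_ball fun y hy => ?_
    rw [hgK y (ball_subset_closedBall (ball_subset_ball (by linarith) hy))]
  rw [e2, setIntegral_const, smul_eq_mul, mul_eq_zero] at e1
  rcases e1 with h | h
  · exfalso
    have h1 : 0 < volume.real (ball x ρ) := by
      rw [Measure.real]
      exact ENNReal.toReal_pos (measure_ball_pos volume x hρ).ne' measure_ball_lt_top.ne
    exact h1.ne' h
  · exact inner_self_eq_zero.mp h

end Pool.Agent.H40.AP
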